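import Pool.Agent.H59.HR.Stm

set_option linter.all false

open Polynomial

namespace HR

/-- substitution `y ↦ y - t R`, `R = Σ s_k x^k` -/
noncomputable def b1sig (R : P2 ℂ[X]) : P2 ℂ[X] →ₐ[ℂ[X]] P2 ℂ[X] :=
  MvPolynomial.aeval ![MvPolynomial.X 0, MvPolynomial.X 1 - MvPolynomial.C X * R]

theorem b1sig_X0 (R : P2 ℂ[X]) : b1sig R (MvPolynomial.X 0) = MvPolynomial.X 0 := by
  simp [b1sig]

theorem b1sig_X1 (R : P2 ℂ[X]) :
    b1sig R (MvPolynomial.X 1) = MvPolynomial.X 1 - MvPolynomial.C X * R := by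
  simp [b1sig]

theorem b1sig_C (R : P2 ℂ[X]) (c : ℂ[X]) : b1sig R (MvPolynomial.C c) = MvPolynomial.C c := by
  simp [b1sig, MvPolynomial.aeval_C]

/-- `σ G = G + t H` -/
theorem b1sig_mod (R G : P2 ℂ[X]) : ∃ H, b1sig R G = G + MvPolynomial.C X * H := by
  induction G using MvPolynomial.induction_on with
  | C c => exact ⟨0, by rw [b1sig_C]; ring⟩
  | add p q hp hq =>
    obtain ⟨H1, h1⟩ := hp
    obtain ⟨H2, h2⟩ := hq
    exact ⟨H1 + H2, by rw [map_add, h1, h2]; ring⟩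
  | mul_X p i hp =>
    obtain ⟨H1, h1⟩ := hp
    have hX : ∃ K, b1sig R (MvPolynomial.X i) = MvPolynomial.X i + MvPolynomial.C X * K := by
      fin_cases i
      · exact ⟨0, by simp only [Fin.zero_eta]; rw [b1sig_X0]; ring⟩
      · exact ⟨-R, by simp only [Fin.mk_one]; rw [b1sig_X1]; ring⟩
    obtain ⟨K, hK⟩ := hX
    refine ⟨p * K + H1 * MvPolynomial.X i + MvPolynomial.C X * H1 * K, ?_⟩
    rw [map_mul, h1, hK]
    ring

/-- `R = R₀ + t R'` -/
theorem b1_div (R : P2 ℂ[X]) :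
    ∃ R', R = emb (MvPolynomial.map (Polynomial.constantCoeff) R) + MvPolynomial.C X * R' := by
  induction R using MvPolynomial.induction_on with
  | C c =>
    refine ⟨MvPolynomial.C (Polynomial.divX c), ?_⟩
    rw [MvPolynomial.map_C, emb, MvPolynomial.map_C, ← map_mul, ← map_add]
    congr 1
    rw [add_comm, mul_comm]
    exact (Polynomial.divX_mul_X_add c).symm
  | add p q hp hq =>
    obtain ⟨p', hp'⟩ := hp
    obtain ⟨q', hq'⟩ := hq
    refine ⟨p' + q', ?_⟩
    rw [map_add, map_add, mul_add]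
    calc p + q = (emb (MvPolynomial.map (Polynomial.constantCoeff) p) + MvPolynomial.C X * p')
          + (emb (MvPolynomial.map (Polynomial.constantCoeff) q) + MvPolynomial.C X * q') := by
            rw [← hp', ← hq']
      _ = _ := by ring
  | mul_X p i hp =>
    obtain ⟨p', hp'⟩ := hp
    refine ⟨p' * MvPolynomial.X i, ?_⟩
    rw [map_mul, map_mul, MvPolynomial.map_X]
    have : emb (MvPolynomial.X i) = MvPolynomial.X i := by simp [emb]
    rw [this]
    calc p * MvPolynomial.X i = (emb (MvPolynomial.map (Polynomial.constantCoeff) p)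
          + MvPolynomial.C X * p') * MvPolynomial.X i := by rw [← hp']
      _ = _ := by ring

/-- the shift of the arc -/
noncomputable def b1R (d : ℕ) (q : ℕ → ℂ[X]) : P2 ℂ[X] :=
  ∑ k ∈ Finset.range d, MvPolynomial.C (q (k + 1)) * MvPolynomial.X 0 ^ (k + 1)

theorem b1_evR (a r : LP[X]) (hr0 : r.coeff 0 = 0) (q : ℕ → ℂ[X])
    (hq : ∀ k, r.coeff k = Polynomial.toLaurent (X * q k)) :
    ev (a + r) (MvPolynomial.map (Polynomial.toLaurent : ℂ[X] →+* LP)
      (MvPolynomial.C X * b1R r.natDegree q)) = r := by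
  have h1 : r = ∑ k ∈ Finset.range r.natDegree,
      Polynomial.C (r.coeff (k + 1)) * Polynomial.X ^ (k + 1) := by
    conv_lhs => rw [Polynomial.as_sum_range_C_mul_X_pow r]
    rw [Finset.sum_range_succ']
    rw [hr0, map_zero, zero_mul, add_zero]
  conv_rhs => rw [h1]
  rw [b1R, Finset.mul_sum, map_sum, map_sum]
  refine Finset.sum_congr rfl fun k _ => ?_
  simp only [map_mul, map_pow, MvPolynomial.map_C, MvPolynomial.map_X, ev_C, ev_X0]
  rw [hq (k + 1)]
  have e : Polynomial.toLaurent (X * q (k + 1))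
    = Polynomial.toLaurent X * Polynomial.toLaurent (q (k + 1)) := map_mul _ _ _
  rw [e, Polynomial.C_mul, mul_assoc]

theorem b1_ev (a r : LP[X]) (hr0 : r.coeff 0 = 0) (q : ℕ → ℂ[X])
    (hq : ∀ k, r.coeff k = Polynomial.toLaurent (X * q k)) (F : P2 ℂ[X]) :
    ev (a + r) (MvPolynomial.map (Polynomial.toLaurent : ℂ[X] →+* LP)
      (b1sig (b1R r.natDegree q) F))
      = ev a (MvPolynomial.map (Polynomial.toLaurent : ℂ[X] →+* LP) F) := by
  induction F using MvPolynomial.induction_on with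
  | C c => rw [b1sig_C, MvPolynomial.map_C, ev_C, ev_C]
  | add p q hp hq => rw [map_add, map_add, map_add, map_add, map_add, hp, hq]
  | mul_X p i hp =>
    have hX : ev (a + r) (MvPolynomial.map (Polynomial.toLaurent : ℂ[X] →+* LP)
        (b1sig (b1R r.natDegree q) (MvPolynomial.X i)))
        = ev a (MvPolynomial.map (Polynomial.toLaurent : ℂ[X] →+* LP) (MvPolynomial.X i)) := by
      fin_cases i
      · simp only [Fin.zero_eta]
        rw [b1sig_X0, MvPolynomial.map_X, ev_X0, ev_X0]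
      · simp only [Fin.mk_one]
        rw [b1sig_X1, map_sub, map_sub, b1_evR a r hr0 q hq, MvPolynomial.map_X, ev_X1, ev_X1,
          add_sub_cancel_right]
    rw [map_mul, map_mul, map_mul, hp, hX, map_mul, map_mul]

theorem b1_fam (n : ℕ) (a r : LP[X]) (hr0 : r.coeff 0 = 0) (q : ℕ → ℂ[X])
    (hq : ∀ k, r.coeff k = Polynomial.toLaurent (X * q k)) (F : P2 ℂ[X]) (hF : F ∈ fam n a) :
    b1sig (b1R r.natDegree q) F ∈ fam n (a + r) := by
  rw [mem_fam] at hF ⊢
  rw [b1_ev a r hr0 q hq]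
  exact hF

/-- the first order term of the shift has no coefficient at `x^0 y^*` nor at `x^* y^(≥1)` -/
theorem b1_R0 (d : ℕ) (q : ℕ → ℂ[X]) (m : Fin 2 →₀ ℕ)
    (h : MvPolynomial.coeff m (MvPolynomial.map (Polynomial.constantCoeff) (b1R d q)) ≠ 0) :
    m 1 = 0 ∧ 1 ≤ m 0 := by
  by_contra hcon
  apply h
  rw [b1R, map_sum, MvPolynomial.coeff_sum]
  refine Finset.sum_eq_zero fun k _ => ?_
  rw [map_mul, map_pow, MvPolynomial.map_C, MvPolynomial.map_X, MvPolynomial.coeff_C_mul,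
    MvPolynomial.coeff_X_pow, if_neg, mul_zero]
  intro h'
  apply hcon
  rw [← h']
  constructor
  · simp
  · simp

theorem B1 : S_B1 := by
  intro n a r hr0 hr
  choose q hq using hr
  set σ := b1sig (b1R r.natDegree q) with hσ
  constructor
  · rintro p ⟨F, hF, H, hFH⟩
    obtain ⟨K, hK⟩ := b1sig_mod (b1R r.natDegree q) (emb (mon ℂ p))
    refine ⟨σ F, b1_fam n a r hr0 q hq F hF, K + σ H, ?_⟩
    rw [hFH, map_add, map_mul, hσ, b1sig_C, hK]
    ring
  · rintro m₀ m' ⟨F, hF, H, hFH⟩ hne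
    obtain ⟨K, hK⟩ := b1sig_mod (b1R r.natDegree q) (emb (mon ℂ m'))
    obtain ⟨R', hR'⟩ := b1_div (b1R r.natDegree q)
    set R := b1R r.natDegree q with hR
    set R₀ := MvPolynomial.map (Polynomial.constantCoeff) R with hR₀
    obtain ⟨kk, hkk⟩ := Polynomial.powAddExpansion (MvPolynomial.X 1 : P2 ℂ[X])
      (-(MvPolynomial.C X * R)) m₀.2
    have hσm : σ (emb (mon ℂ m₀)) = emb (mon ℂ m₀)
        + MvPolynomial.C X * (-(m₀.2 : P2 ℂ[X]) * (emb (mon ℂ (m₀.1, m₀.2 - 1)) * emb R₀))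
        + MvPolynomial.C (X ^ 2) * (-(m₀.2 : P2 ℂ[X]) * (emb (mon ℂ (m₀.1, m₀.2 - 1)) * R')
          + MvPolynomial.X 0 ^ m₀.1 * kk * R ^ 2) := by
      rw [emb_mon, emb_mon]
      have : σ (mon ℂ[X] m₀) = MvPolynomial.X 0 ^ m₀.1
          * (MvPolynomial.X 1 + (-(MvPolynomial.C X * R))) ^ m₀.2 := by
        rw [mon, map_mul, map_pow, map_pow, hσ, b1sig_X0, b1sig_X1, sub_eq_add_neg]
      rw [this, hkk, map_pow]
      simp only [mon]
      have e : (MvPolynomial.X 0 : P2 ℂ[X]) ^ m₀.1 * (MvPolynomial.X 1 ^ m₀.2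
          + (m₀.2 : P2 ℂ[X]) * MvPolynomial.X 1 ^ (m₀.2 - 1) * (-(MvPolynomial.C X * R))
          + kk * (-(MvPolynomial.C X * R)) ^ 2)
          = MvPolynomial.X 0 ^ m₀.1 * MvPolynomial.X 1 ^ m₀.2
          + MvPolynomial.C X * (-(m₀.2 : P2 ℂ[X]) * (MvPolynomial.X 0 ^ m₀.1
            * MvPolynomial.X 1 ^ (m₀.2 - 1) * R))
          + MvPolynomial.C X ^ 2 * (MvPolynomial.X 0 ^ m₀.1 * kk * R ^ 2) := by ring
      rw [e]
      conv_lhs => rw [show MvPolynomial.C X * (-(m₀.2 : P2 ℂ[X]) * (MvPolynomial.X 0 ^ m₀.1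
            * MvPolynomial.X 1 ^ (m₀.2 - 1) * R)) = MvPolynomial.C X * (-(m₀.2 : P2 ℂ[X]) *
            (MvPolynomial.X 0 ^ m₀.1 * MvPolynomial.X 1 ^ (m₀.2 - 1)
              * (emb R₀ + MvPolynomial.C X * R'))) by rw [← hR']]
      ring
    refine ⟨mon ℂ m' - (m₀.2 : P2 ℂ) * (mon ℂ (m₀.1, m₀.2 - 1) * R₀), ⟨σ F,
      b1_fam n a r hr0 q hq F hF, -(m₀.2 : P2 ℂ[X]) * (emb (mon ℂ (m₀.1, m₀.2 - 1)) * R')
          + MvPolynomial.X 0 ^ m₀.1 * kk * R ^ 2 + K + σ H, ?_⟩, ?_⟩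
    · have hXX : σ (MvPolynomial.C (X ^ 2)) = MvPolynomial.C X ^ 2 := by
        rw [hσ, b1sig_C, map_pow]
      have hX1 : σ (MvPolynomial.C X) = MvPolynomial.C X := by
        rw [hσ, b1sig_C]
      rw [hFH, map_add, map_add, map_mul, map_mul, hXX, hX1, hσm]
      rw [hσ, hK, map_sub, map_mul, map_mul, map_natCast, map_pow]
      ring
    · have h0 : MvPolynomial.coeff (ex m') ((m₀.2 : P2 ℂ) * (mon ℂ (m₀.1, m₀.2 - 1) * R₀)) = 0 := by
        rw [show (m₀.2 : P2 ℂ) = MvPolynomial.C (m₀.2 : ℂ) by simp, MvPolynomial.coeff_C_mul]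
        by_cases hz : m₀.2 = 0
        · rw [hz]; simp
        · rw [mon_eq, MvPolynomial.coeff_monomial_mul']
          split_ifs with hle
          · rw [one_mul]
            by_contra hne0
            have hne1 : MvPolynomial.coeff (ex m' - ex (m₀.1, m₀.2 - 1)) R₀ ≠ 0 := by
              intro h; apply hne0; rw [h, mul_zero]
            obtain ⟨h1, h2⟩ := b1_R0 _ _ _ hne1
            have l0 := hle 0
            have l1 := hle 1
            simp only [Finsupp.tsub_apply, ex_zero, ex_one] at h1 h2 l0 l1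
            refine hne (m'.1 - m₀.1) h2 ?_ ?_
            · omega
            · omega
          · rw [mul_zero]
      rw [MvPolynomial.coeff_sub, h0, sub_zero, mon_eq, MvPolynomial.coeff_monomial, if_pos rfl]
      exact one_ne_zero

end HR
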