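import Pool.Agent.H59.HR.Stm

set_option linter.all false

open Polynomial

namespace HR

theorem j1_coeff_mon (p q : ℕ × ℕ) :
    MvPolynomial.coeff (ex q) (mon ℂ p) = if p = q then 1 else 0 := by
  rw [mon_eq, MvPolynomial.coeff_monomial]
  by_cases h : p = q
  · subst h; simp
  · rw [if_neg h, if_neg (fun h' => h (ex_inj h'))]

theorem j1_coeff_X0 (q : ℕ × ℕ) (f : P2 ℂ) :
    MvPolynomial.coeff (ex q) (MvPolynomial.X 0 * f) =
      if q.1 = 0 then 0 else MvPolynomial.coeff (ex (q.1 - 1, q.2)) f := by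
  rw [MvPolynomial.coeff_X_mul']
  by_cases h : q.1 = 0
  · rw [if_pos h, if_neg]
    simp [h]
  · rw [if_neg h, if_pos]
    · congr 1
      ext i
      fin_cases i <;> simp
    · simp [h]

theorem j1_coeff_X1 (q : ℕ × ℕ) (f : P2 ℂ) :
    MvPolynomial.coeff (ex q) (MvPolynomial.X 1 * f) =
      if q.2 = 0 then 0 else MvPolynomial.coeff (ex (q.1, q.2 - 1)) f := by
  rw [MvPolynomial.coeff_X_mul']
  by_cases h : q.2 = 0
  · rw [if_pos h, if_neg]
    simp [h]
  · rw [if_neg h, if_pos]
    · congr 1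
      ext i
      fin_cases i <;> simp
    · simp [h]

/-- the defining condition of `J₁` -/
def J1P (S : Finset (ℕ × ℕ)) (m₀ m' : ℕ × ℕ) (f : P2 ℂ) : Prop :=
  ∀ q ∈ S, MvPolynomial.coeff (ex q) f =
    if q = m' then MvPolynomial.coeff (ex m₀) f else 0

theorem j1_X (S : Finset (ℕ × ℕ)) (hS : IsLowerSet (S : Set (ℕ × ℕ))) (m₀ m' : ℕ × ℕ)
    (h0 : m₀ ∉ S) (h1 : m' ∈ S)
    (hmin : ∀ q, q ≤ m₀ → q ≠ m₀ → q ∈ S) (hmax : ∀ q, m' ≤ q → q ≠ m' → q ∉ S)
    (hx : m₀ ≠ (m'.1 + 1, m'.2)) (hy : m₀ ≠ (m'.1, m'.2 + 1)) (f : P2 ℂ)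
    (hf : J1P S m₀ m' f) (i : Fin 2) : J1P S m₀ m' (MvPolynomial.X i * f) := by
  have key : ∀ q : ℕ × ℕ, q ∈ S → q ≠ m' → MvPolynomial.coeff (ex q) f = 0 := by
    intro q hq hne
    rw [hf q hq, if_neg hne]
  fin_cases i
  · intro q hq
    simp only [Fin.zero_eta, Fin.isValue]
    rw [j1_coeff_X0, j1_coeff_X0]
    have e1 : (if q.1 = 0 then (0 : ℂ) else MvPolynomial.coeff (ex (q.1 - 1, q.2)) f) = 0 := by
      split_ifs with hc
      · rfl
      · apply key
        · exact hS (show ((q.1 - 1, q.2) : ℕ × ℕ) ≤ q from ⟨Nat.sub_le _ _, le_refl _⟩) hq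
        · intro h
          refine hmax q ?_ ?_ hq
          · rw [← h]; exact ⟨Nat.sub_le _ _, le_refl _⟩
          · intro h'
            have : q.1 - 1 = q.1 := by
              have := congrArg Prod.fst h
              simp only at this
              rw [this, h']
            omega
    have e2 : (if m₀.1 = 0 then (0 : ℂ) else MvPolynomial.coeff (ex (m₀.1 - 1, m₀.2)) f) = 0 := by
      split_ifs with hc
      · rfl
      · apply key
        · apply hmin
          · exact ⟨Nat.sub_le _ _, le_refl _⟩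
          · intro h
            have := congrArg Prod.fst h
            simp only at this
            omega
        · intro h
          apply hx
          rw [← h]
          ext
          · simp only; omega
          · rfl
    rw [e1, e2]
    simp
  · intro q hq
    simp only [Fin.mk_one, Fin.isValue]
    rw [j1_coeff_X1, j1_coeff_X1]
    have e1 : (if q.2 = 0 then (0 : ℂ) else MvPolynomial.coeff (ex (q.1, q.2 - 1)) f) = 0 := by
      split_ifs with hc
      · rfl
      · apply key
        · exact hS (show ((q.1, q.2 - 1) : ℕ × ℕ) ≤ q from ⟨le_refl _, Nat.sub_le _ _⟩) hq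
        · intro h
          refine hmax q ?_ ?_ hq
          · rw [← h]; exact ⟨le_refl _, Nat.sub_le _ _⟩
          · intro h'
            have : q.2 - 1 = q.2 := by
              have := congrArg Prod.snd h
              simp only at this
              rw [this, h']
            omega
    have e2 : (if m₀.2 = 0 then (0 : ℂ) else MvPolynomial.coeff (ex (m₀.1, m₀.2 - 1)) f) = 0 := by
      split_ifs with hc
      · rfl
      · apply key
        · apply hmin
          · exact ⟨le_refl _, Nat.sub_le _ _⟩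
          · intro h
            have := congrArg Prod.snd h
            simp only at this
            omega
        · intro h
          apply hy
          rw [← h]
          ext
          · rfl
          · simp only; omega
    rw [e1, e2]
    simp

/-- the ideal `J₁` -/
noncomputable def J1I (S : Finset (ℕ × ℕ)) (hS : IsLowerSet (S : Set (ℕ × ℕ))) (m₀ m' : ℕ × ℕ)
    (h0 : m₀ ∉ S) (h1 : m' ∈ S)
    (hmin : ∀ q, q ≤ m₀ → q ≠ m₀ → q ∈ S) (hmax : ∀ q, m' ≤ q → q ≠ m' → q ∉ S)
    (hx : m₀ ≠ (m'.1 + 1, m'.2)) (hy : m₀ ≠ (m'.1, m'.2 + 1)) : Ideal (P2 ℂ) where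
  carrier := {f | J1P S m₀ m' f}
  add_mem' := by
    intro a b ha hb q hq
    rw [MvPolynomial.coeff_add, MvPolynomial.coeff_add, ha q hq, hb q hq]
    split_ifs <;> simp
  zero_mem' := by
    intro q hq
    simp
  smul_mem' := by
    intro c
    show ∀ f : P2 ℂ, J1P S m₀ m' f → J1P S m₀ m' (c * f)
    induction c using MvPolynomial.induction_on with
    | C a =>
      intro f hf q hq
      rw [MvPolynomial.coeff_C_mul, MvPolynomial.coeff_C_mul, hf q hq]
      split_ifs <;> simp
    | add p r hp hr =>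
      intro f hf q hq
      rw [add_mul, MvPolynomial.coeff_add, MvPolynomial.coeff_add, hp f hf q hq, hr f hf q hq]
      split_ifs <;> simp
    | mul_X p i hp =>
      intro f hf
      rw [mul_assoc]
      exact hp _ (j1_X S hS m₀ m' h0 h1 hmin hmax hx hy f hf i)

/-- the functionals cutting out `J₁` -/
noncomputable def J1phi (S : Finset (ℕ × ℕ)) (m₀ m' : ℕ × ℕ) : P2 ℂ →ₗ[ℂ] (S → ℂ) where
  toFun f q := MvPolynomial.coeff (ex q.1) f -
    if q.1 = m' then MvPolynomial.coeff (ex m₀) f else 0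
  map_add' := by
    intro f g
    funext q
    simp only [MvPolynomial.coeff_add, Pi.add_apply]
    split_ifs <;> ring
  map_smul' := by
    intro c f
    funext q
    simp only [MvPolynomial.coeff_smul, Pi.smul_apply, smul_eq_mul, RingHom.id_apply]
    split_ifs <;> ring

theorem J1phi_mon (S : Finset (ℕ × ℕ)) (m₀ m' : ℕ × ℕ) (h0 : m₀ ∉ S) (p q : S) :
    J1phi S m₀ m' (mon ℂ p.1) q = if p = q then 1 else 0 := by
  show MvPolynomial.coeff (ex q.1) (mon ℂ p.1) -
    (if q.1 = m' then MvPolynomial.coeff (ex m₀) (mon ℂ p.1) else 0) = _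
  rw [j1_coeff_mon, j1_coeff_mon, if_neg (show ¬ (p.1 = m₀) from fun h => h0 (h ▸ p.2)), ite_self,
    sub_zero]
  by_cases h : p = q
  · rw [if_pos h, if_pos (congrArg Subtype.val h)]
  · rw [if_neg h, if_neg (fun h' => h (Subtype.ext h'))]

theorem J1 : S_J1 := by
  intro n S hS hcard h01 m₀ m' h0 h1 hmin hmax hx hy
  have h00 : ((0, 0) : ℕ × ℕ) ∈ S :=
    hS (show ((0, 0) : ℕ × ℕ) ≤ (0, 1) from ⟨le_refl _, Nat.zero_le _⟩) h01
  have hn : 0 < n := by
    rw [← hcard]; exact Finset.card_pos.mpr ⟨_, h00⟩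
  set J := J1I S hS m₀ m' h0 h1 hmin hmax hx hy with hJ
  have hmem : ∀ f, f ∈ J ↔ J1P S m₀ m' f := fun f => Iff.rfl
  set Φ := J1phi S m₀ m' with hΦ
  have hker : ∀ f, f ∈ J ↔ Φ f = 0 := by
    intro f
    rw [hmem]
    constructor
    · intro h
      funext q
      show MvPolynomial.coeff (ex q.1) f - _ = 0
      rw [h q.1 q.2, sub_self]
    · intro h q hq
      have := congrFun h ⟨q, hq⟩
      exact sub_eq_zero.mp this
  have hsurj : Function.Surjective Φ := by
    intro w
    refine ⟨∑ p : S, w p • mon ℂ p.1, ?_⟩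
    rw [map_sum]
    funext q
    rw [Finset.sum_apply]
    simp only [map_smul, Pi.smul_apply, hΦ, J1phi_mon S m₀ m' h0, smul_eq_mul]
    simp
  -- linear equivalence
  have hkerS : LinearMap.ker Φ = J.restrictScalars ℂ := by
    ext f
    rw [LinearMap.mem_ker, ← hker]
    rfl
  let e1 : (P2 ℂ ⧸ J.restrictScalars ℂ) ≃ₗ[ℂ] (S → ℂ) :=
    (Submodule.quotEquivOfEq _ _ hkerS.symm).trans (Φ.quotKerEquivOfSurjective hsurj)
  let e0 : (P2 ℂ ⧸ J) ≃ₗ[ℂ] (P2 ℂ ⧸ J.restrictScalars ℂ) :=
    (Submodule.Quotient.restrictScalarsEquiv ℂ J).symm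
  let e := e0.trans e1
  have he : ∀ f : P2 ℂ, e (Ideal.Quotient.mk J f) = Φ f := by
    intro f
    rfl
  -- enumeration
  have hcard' : Fintype.card S = n := by simp [hcard]
  let u : S ≃ Fin n := Fintype.equivFinOfCardEq hcard'
  let i0 : Fin n := ⟨0, hn⟩
  let v : Fin n ≃ S := (Equiv.swap i0 (u ⟨(0, 0), h00⟩)).trans u.symm
  have hv0 : v i0 = ⟨(0, 0), h00⟩ := by
    simp [v]
  refine ⟨J, fun b => (v b).1, hn, ?_, ?_, ?_, ?_, ?_, ?_, ?_, ?_⟩
  · show (v i0).1 = (0, 0)
    rw [hv0]
  · intro p hp hpne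
    rw [hmem]
    intro q hq
    rw [j1_coeff_mon, j1_coeff_mon, if_neg (show ¬ (p = q) from fun h => hp (h ▸ hq)), if_neg hpne,
      ite_self]
  · rw [hmem]
    intro q hq
    have hne : m₀ ≠ m' := fun h => h0 (h ▸ h1)
    rw [MvPolynomial.coeff_add, MvPolynomial.coeff_add, j1_coeff_mon, j1_coeff_mon, j1_coeff_mon,
      j1_coeff_mon, if_neg (show ¬ (m₀ = q) from fun h => h0 (h ▸ hq)), if_pos rfl,
      if_neg (Ne.symm hne)]
    by_cases h : q = m'
    · rw [if_pos h, if_pos h.symm]; ring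
    · rw [if_neg h, if_neg (Ne.symm h)]; ring
  · have : LinearIndependent ℂ (fun b => e (Ideal.Quotient.mk J (mon ℂ (v b).1))) := by
      have hrw : (fun b => e (Ideal.Quotient.mk J (mon ℂ (v b).1)))
          = (fun b => (Pi.basisFun ℂ S) (v b)) := by
        funext b
        rw [he]
        funext q
        rw [hΦ, J1phi_mon S m₀ m' h0, Pi.basisFun_apply, Pi.single_apply]
        simp only [eq_comm]
      rw [hrw]
      exact (Pi.basisFun ℂ S).linearIndependent.comp v v.injective
    exact LinearIndependent.of_comp e.toLinearMap this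
  · exact Module.Finite.equiv e.symm
  · rw [LinearEquiv.finrank_eq e, Module.finrank_fintype_fun_eq_card, hcard']
  · obtain ⟨N, hN⟩ : ∃ N : ℕ, ∀ q ∈ insert m₀ S, q.1 < N := by
      refine ⟨(insert m₀ S).sup Prod.fst + 1, fun q hq => ?_⟩
      exact Nat.lt_succ_of_le (Finset.le_sup (f := Prod.fst) hq)
    refine ⟨N, ?_⟩
    have hm : (MvPolynomial.X 0 : P2 ℂ) ^ N = mon ℂ (N, 0) := by simp [mon]
    rw [hm, hmem]
    intro q hq
    have n1 : ¬ (((N, 0) : ℕ × ℕ) = q) := by
      intro h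
      have := hN q (Finset.mem_insert_of_mem hq)
      rw [← h] at this
      exact lt_irrefl _ this
    have n2 : ¬ (((N, 0) : ℕ × ℕ) = m₀) := by
      intro h
      have := hN m₀ (Finset.mem_insert_self _ _)
      rw [← h] at this
      exact lt_irrefl _ this
    rw [j1_coeff_mon, j1_coeff_mon, if_neg n1, if_neg n2, ite_self]
  · obtain ⟨N, hN⟩ : ∃ N : ℕ, ∀ q ∈ insert m₀ S, q.2 < N := by
      refine ⟨(insert m₀ S).sup Prod.snd + 1, fun q hq => ?_⟩
      exact Nat.lt_succ_of_le (Finset.le_sup (f := Prod.snd) hq)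
    refine ⟨N, ?_⟩
    have hm : (MvPolynomial.X 1 : P2 ℂ) ^ N = mon ℂ (0, N) := by simp [mon]
    rw [hm, hmem]
    intro q hq
    have n1 : ¬ (((0, N) : ℕ × ℕ) = q) := by
      intro h
      have := hN q (Finset.mem_insert_of_mem hq)
      rw [← h] at this
      exact lt_irrefl _ this
    have n2 : ¬ (((0, N) : ℕ × ℕ) = m₀) := by
      intro h
      have := hN m₀ (Finset.mem_insert_self _ _)
      rw [← h] at this
      exact lt_irrefl _ this
    rw [j1_coeff_mon, j1_coeff_mon, if_neg n1, if_neg n2, ite_self]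

end HR
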